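import Pool.Agent.K1H62.MC.Plan

/-! # Piece MC-COEF: the coefficients to first order -/

set_option autoImplicit false

namespace Pool.Agent.K1H9.MC

open MeasureTheory Filter Topology
open scoped ENNReal ContDiff
open Pool.Agent.K1H62.MC

theorem bd2 {F : E → ℝ} (hF : Def F) (i : Fin 3) : ∃ B : ℝ, 0 ≤ B ∧ ∀ x, |pd i (pd i F) x| ≤ B := by
  have h1 : ContDiff ℝ ∞ (pd i (pd i F)) := pd_smooth' (pd_smooth' hF.1 i) i
  have h2 : HasCompactSupport (pd i (pd i F)) := by
    apply IsCompact.of_isClosed_subset hF.2.1 (isClosed_tsupport _)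
    exact (pd_tsupport i).trans (pd_tsupport i)
  obtain ⟨B, hB⟩ := h1.continuous.bounded_above_of_compact_support h2
  refine ⟨B, (norm_nonneg _).trans (hB 0), fun x => ?_⟩
  rw [← Real.norm_eq_abs]
  exact hB x

theorem aa_bd {F : E → ℝ} (hF : Def F) : ∃ B : ℝ, 0 ≤ B ∧ ∀ i x, |aa F i x| ≤ B := by
  obtain ⟨B0, h0, hB0⟩ := bd2 hF 0
  obtain ⟨B1, h1, hB1⟩ := bd2 hF 1
  refine ⟨B0 + B1, by positivity, fun i x => ?_⟩
  have h2 := abs_le.mp (hB0 x)
  have h3 := abs_le.mp (hB1 x)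
  unfold aa
  rw [abs_le]
  fin_cases i <;> simp <;> constructor <;> linarith

theorem expo (F : E → ℝ) (K t : ℝ) (i : Fin 3) (x : E) (hp : 0 < ph K t x) :
    Real.exp (-2 * al F K t i x) * vol (gm F K t) x =
      ph K t x ^ 2 * Real.exp (t * (aa F 0 x + aa F 1 x + aa F 2 x - 2 * aa F i x)) := by
  have h1 : vol (gm F K t) x = Real.exp (al F K t 0 x + al F K t 1 x + al F K t 2 x) :=
    vol_diag (fun i => al F K t i) x
  have h2 : ph K t x ^ 2 = Real.exp (2 * Real.log (ph K t x)) := by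
    rw [mul_comm, Real.exp_mul, Real.exp_log hp]
    norm_num
  rw [h1, h2, ← Real.exp_add, ← Real.exp_add]
  congr 1
  unfold al
  ring

theorem coef : S_COEF := by
  intro hP F hF K hK
  obtain ⟨-, -, -, -, -, hu⟩ := hP
  obtain ⟨B, hB0, hB⟩ := aa_bd hF
  refine ⟨6 * K + (5 * B) ^ 2 + B + 1, min (1 / (2 * (K + 1))) (min 1 (1 / (5 * B + 1))),
    by positivity, by positivity, fun t ht0 ht => ?_⟩
  have ht1 : t < 1 / (2 * (K + 1)) := lt_of_lt_of_le ht (min_le_left _ _)
  have ht2 : t < 1 := lt_of_lt_of_le ht ((min_le_right _ _).trans (min_le_left _ _))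
  have ht3 : t < 1 / (5 * B + 1) := lt_of_lt_of_le ht ((min_le_right _ _).trans (min_le_right _ _))
  rw [lt_div_iff₀ (by positivity)] at ht1 ht3
  have hKt : K * t ^ 2 < 1 / 2 := by nlinarith [mul_pos hK ht0]
  refine ⟨hKt, fun x hx i => ⟨?_, ?_⟩⟩
  · have hx' : 3 < s x := by
      have : (4 : ℝ) ≤ s x := hx
      linarith
    have h1 := abs_lt.mp (hu x hx')
    have h2 : u x ^ 2 ≤ 1 := by nlinarith
    have h3 : 0 ≤ K * t ^ 2 * u x ^ 2 := by positivity
    have h4 : K * t ^ 2 * u x ^ 2 ≤ K * t ^ 2 := by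
      have : 0 ≤ K * t ^ 2 := by positivity
      nlinarith
    have hp : 0 < ph K t x := by
      unfold ph
      linarith
    rw [expo F K t i x hp]
    set b := aa F 0 x + aa F 1 x + aa F 2 x - 2 * aa F i x with hb
    have hbb : |b| ≤ 5 * B := by
      have e0 := abs_le.mp (hB 0 x)
      have e1 := abs_le.mp (hB 1 x)
      have e2 := abs_le.mp (hB 2 x)
      have e3 := abs_le.mp (hB i x)
      rw [hb, abs_le]
      constructor <;> linarith
    have htb : |t * b| ≤ 1 := by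
      rw [abs_mul, abs_of_pos ht0]
      nlinarith [mul_le_mul_of_nonneg_left hbb ht0.le]
    have h5 := Real.abs_exp_sub_one_sub_id_le htb
    have h6 : (t * b) ^ 2 ≤ (5 * B) ^ 2 * t ^ 2 := by
      rw [mul_pow, mul_comm]
      apply mul_le_mul_of_nonneg_right _ (sq_nonneg t)
      rw [← sq_abs]
      exact pow_le_pow_left₀ (abs_nonneg _) hbb 2
    have h7 : Real.exp (t * b) ≤ 3 := by
      have e1 : t * b ≤ 1 := (le_abs_self _).trans htb
      have e2 := Real.exp_le_exp.mpr e1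
      have e3 := Real.exp_one_lt_d9
      linarith
    have h8 : |ph K t x ^ 2 - 1| ≤ 2 * (K * t ^ 2) := by
      have e1 : ph K t x ^ 2 - 1 = -(1 - ph K t x) * (1 + ph K t x) := by ring
      have e2 : 0 ≤ 1 - ph K t x ∧ 1 - ph K t x ≤ K * t ^ 2 := by
        unfold ph
        constructor <;> linarith
      rw [e1, abs_le]
      constructor <;> nlinarith [e2.1, e2.2]
    have h9 : ph K t x ^ 2 * Real.exp (t * b) - 1 - t * b =
        (ph K t x ^ 2 - 1) * Real.exp (t * b) + (Real.exp (t * b) - 1 - t * b) := by ring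
    rw [h9]
    refine (abs_add_le _ _).trans ?_
    rw [abs_mul, abs_of_pos (Real.exp_pos _)]
    have h10 : |ph K t x ^ 2 - 1| * Real.exp (t * b) ≤ 2 * (K * t ^ 2) * 3 :=
      mul_le_mul h8 h7 (Real.exp_pos _).le (by positivity)
    nlinarith [sq_nonneg t, mul_nonneg hB0 (sq_nonneg t)]
  · have h1 := hB i x
    nlinarith [sq_nonneg (5 * B)]

end Pool.Agent.K1H9.MC
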