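import Pool.Agent.K1H62.MC.Plan

/-! # Piece MC-GEO: geometry of the spheroid -/

set_option autoImplicit false

namespace Pool.Agent.K1H9.MC

open MeasureTheory Filter Topology
open scoped ENNReal ContDiff
open Pool.Agent.K1H62.MC

theorem norm_pp : ‖pp‖ = 1 := by
  unfold pp
  simp

theorem s_zero : s 0 = 2 := by
  unfold s
  rw [zero_sub, norm_neg, zero_add, norm_pp]
  norm_num

theorem s_conv (x y : E) {a b : ℝ} (ha : 0 ≤ a) (hb : 0 ≤ b) (hab : a + b = 1) :
    s (a • x + b • y) ≤ a * s x + b * s y := by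
  unfold s
  have h1 : a • x + b • y - pp = a • (x - pp) + b • (y - pp) := by
    have : pp = (a + b) • pp := by rw [hab, one_smul]
    rw [smul_sub, smul_sub]
    nth_rewrite 1 [this]
    rw [add_smul]
    abel
  have h2 : a • x + b • y + pp = a • (x + pp) + b • (y + pp) := by
    have : pp = (a + b) • pp := by rw [hab, one_smul]
    rw [smul_add, smul_add]
    nth_rewrite 1 [this]
    rw [add_smul]
    abel
  have h3 : ‖a • x + b • y - pp‖ ≤ a * ‖x - pp‖ + b * ‖y - pp‖ := by
    rw [h1]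
    refine (norm_add_le _ _).trans ?_
    rw [norm_smul, norm_smul, Real.norm_of_nonneg ha, Real.norm_of_nonneg hb]
  have h4 : ‖a • x + b • y + pp‖ ≤ a * ‖x + pp‖ + b * ‖y + pp‖ := by
    rw [h2]
    refine (norm_add_le _ _).trans ?_
    rw [norm_smul, norm_smul, Real.norm_of_nonneg ha, Real.norm_of_nonneg hb]
  linarith

theorem s_smul (x : E) {t : ℝ} (h0 : 0 ≤ t) (h1 : t ≤ 1) : s (t • x) ≤ t * s x + (1 - t) * 2 := by
  have h := s_conv x 0 h0 (by linarith : 0 ≤ 1 - t) (by ring)
  rw [smul_zero, add_zero, s_zero] at h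
  exact h

theorem s_convex : Convex ℝ {x : E | s x < 4} := by
  intro x hx y hy a b ha hb hab
  have h := s_conv x y ha hb hab
  rw [Set.mem_ofPred_eq] at hx hy ⊢
  rcases ha.eq_or_lt with h0 | h0
  · have hb1 : b = 1 := by linarith
    rw [← h0, hb1] at h ⊢
    linarith
  · have h1 : a * s x < a * 4 := mul_lt_mul_of_pos_left hx h0
    have h2 : b * s y ≤ b * 4 := mul_le_mul_of_nonneg_left hy.le hb
    have h3 : a * 4 + b * 4 = 4 := by rw [← add_mul, hab, one_mul]
    linarith

theorem s_ge (x : E) : 2 * ‖x‖ ≤ s x := by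
  unfold s
  have h1 : (2 : ℝ) • x = (x - pp) + (x + pp) := by
    rw [two_smul]
    abel
  have h2 : ‖(2 : ℝ) • x‖ ≤ ‖x - pp‖ + ‖x + pp‖ := by
    rw [h1]
    exact norm_add_le _ _
  rw [norm_smul] at h2
  norm_num at h2
  exact h2

theorem s_le (x : E) : s x ≤ 2 * ‖x‖ + 2 := by
  unfold s
  have h1 := norm_sub_le x pp
  have h2 := norm_add_le x pp
  rw [norm_pp] at h1 h2
  linarith

theorem s_lip : LipschitzWith 2 s := by
  apply LipschitzWith.of_dist_le_mul
  intro x y
  rw [Real.dist_eq, dist_eq_norm]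
  unfold s
  have h1 : |‖x - pp‖ - ‖y - pp‖| ≤ ‖x - y‖ := by
    have := abs_norm_sub_norm_le (x - pp) (y - pp)
    rwa [sub_sub_sub_cancel_right] at this
  have h2 : |‖x + pp‖ - ‖y + pp‖| ≤ ‖x - y‖ := by
    have := abs_norm_sub_norm_le (x + pp) (y + pp)
    rwa [add_sub_add_right_eq_sub] at this
  have h3 : ‖x - pp‖ + ‖x + pp‖ - (‖y - pp‖ + ‖y + pp‖) =
      (‖x - pp‖ - ‖y - pp‖) + (‖x + pp‖ - ‖y + pp‖) := by ring
  rw [h3]
  refine (abs_add_le _ _).trans ?_
  have : ((2 : NNReal) : ℝ) = 2 := rfl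
  rw [this]
  linarith

theorem clos : closure {x : E | s x < 4} = {x | s x ≤ 4} := by
  apply Set.Subset.antisymm
  · apply closure_minimal
    · intro x hx
      rw [Set.mem_ofPred_eq] at hx ⊢
      exact hx.le
    · exact isClosed_le s_cont continuous_const
  · intro x hx
    rw [Set.mem_ofPred_eq] at hx
    have h1 : Tendsto (fun t : ℝ => t • x) (𝓝[<] 1) (𝓝 ((1 : ℝ) • x)) := by
      apply tendsto_nhdsWithin_of_tendsto_nhds
      exact (continuous_id.smul continuous_const).tendsto 1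
    rw [one_smul] at h1
    apply mem_closure_of_tendsto h1
    have h2 : ∀ᶠ t : ℝ in 𝓝[<] 1, 0 < t :=
      (Filter.Tendsto.eventually_const_lt (by norm_num : (0 : ℝ) < 1)
        (tendsto_nhdsWithin_of_tendsto_nhds (tendsto_id (α := ℝ))))
    filter_upwards [h2, self_mem_nhdsWithin] with t h3 h4
    rw [Set.mem_Iio] at h4
    have h5 := s_smul x h3.le h4.le
    nlinarith

theorem compl_MM : MMᶜ = {x : E | s x < 4} := by
  ext x
  unfold MM
  simp

theorem front : frontier {x : E | s x < 4} = {x | s x = 4} := by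
  have h1 : IsOpen {x : E | s x < 4} := isOpen_lt s_cont continuous_const
  rw [frontier, h1.interior_eq, clos]
  ext x
  simp only [Set.mem_sdiff, Set.mem_ofPred_eq, not_lt]
  constructor
  · rintro ⟨h2, h3⟩
    exact le_antisymm h2 h3
  · intro h
    exact ⟨h.le, h.ge⟩

theorem ne_foci {x : E} (hx : 2 < s x) : x - pp ≠ 0 ∧ x + pp ≠ 0 := by
  constructor
  · intro h
    have h1 : x = pp := sub_eq_zero.mp h
    have h2 : s x = 2 := by
      unfold s
      rw [h1, sub_self, norm_zero, ← two_smul ℝ pp, norm_smul, norm_pp]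
      norm_num
    linarith
  · intro h
    have h1 : x = -pp := eq_neg_of_add_eq_zero_left h
    have h2 : s x = 2 := by
      unfold s
      rw [h1, neg_add_cancel, norm_zero, ← neg_add', norm_neg, ← two_smul ℝ pp, norm_smul, norm_pp]
      norm_num
    linarith

theorem s_smooth : ContDiffOn ℝ ∞ s {x | 2 < s x} := by
  intro x hx
  obtain ⟨h1, h2⟩ := ne_foci hx
  apply ContDiffAt.contDiffWithinAt
  unfold s
  exact ((contDiffAt_id.sub contDiffAt_const).norm ℝ h1).add
    ((contDiffAt_id.add contDiffAt_const).norm ℝ h2)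

theorem grad_ne {x : E} (hx : 2 < s x) : fderiv ℝ s x ≠ 0 := by
  intro h0
  have hd : DifferentiableAt ℝ s x := diff_of (open_s 2) s_smooth hx
  have h1 : HasFDerivAt s (0 : E →L[ℝ] ℝ) x := by
    rw [← h0]
    exact hd.hasFDerivAt
  have h2 : HasDerivAt (fun t : ℝ => t • x) x 1 := by
    have := (hasDerivAt_id (1 : ℝ)).smul_const x
    simpa using this
  have h1' : HasFDerivAt s (0 : E →L[ℝ] ℝ) ((1 : ℝ) • x) := by rwa [one_smul]
  have h3 : HasDerivAt (fun t : ℝ => s (t • x)) 0 1 := by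
    have h4 := h1'.comp_hasDerivAt (1 : ℝ) h2
    exact h4
  rw [hasDerivAt_iff_tendsto_slope] at h3
  have h4 : Tendsto (slope (fun t : ℝ => s (t • x)) 1) (𝓝[<] 1) (𝓝 0) := by
    apply h3.mono_left
    apply nhdsWithin_mono
    intro t ht
    exact ne_of_lt ht
  have h5 : s x - 2 ≤ 0 := by
    apply ge_of_tendsto h4
    have h2 : ∀ᶠ t : ℝ in 𝓝[<] 1, 0 < t :=
      (Filter.Tendsto.eventually_const_lt (by norm_num : (0 : ℝ) < 1)
        (tendsto_nhdsWithin_of_tendsto_nhds (tendsto_id (α := ℝ))))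
    filter_upwards [h2, self_mem_nhdsWithin] with t h3 h4
    rw [Set.mem_Iio] at h4
    have h5 := s_smul x h3.le h4.le
    rw [slope_def_field, one_smul, le_div_iff_of_neg (by linarith)]
    nlinarith
  linarith

theorem geo : S_GEO := by
  refine ⟨s_convex, s_ge, s_le, s_lip, front, ?_, ?_, s_smooth, fun x hx => grad_ne hx, ?_⟩
  · rw [← frontier_compl, compl_MM, front]
  · rw [← compl_compl MM, interior_compl, compl_MM, clos]
    ext x
    simp
  · rw [← front]
    exact s_convex.addHaar_frontier volume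

end Pool.Agent.K1H9.MC
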